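import Pool.Agent.Run7.h425.RN.Iface

/-!
# Project RN (helper425), piece COS: negative moments of `A cos 2πx + B` (helper600)
-/

set_option autoImplicit false

namespace Run7.h600.RN

open MeasureTheory Real Pool.Agent.Run7.h425.RN
open scoped ENNReal

theorem cs_coe (y : ℝ) : cs (y : Tc) = Real.cos (2 * π * y) := by
  unfold cs
  rw [fourier_coe_apply]
  have : (2 * (π : ℂ) * Complex.I * ((1 : ℤ) : ℂ) * (y : ℂ) / ((1 : ℝ) : ℂ)) = ((2 * π * y : ℝ) : ℂ) * Complex.I := by
    push_cast; ring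
  rw [this, Complex.exp_ofReal_mul_I_re]

theorem cs_cont : Continuous cs := by
  unfold cs
  exact Complex.continuous_re.comp (map_continuous (fourier 1))

theorem cs_abs (x : Tc) : |cs x| ≤ 1 := by
  induction x using QuotientAddGroup.induction_on with
  | H y => 
    have := cs_coe y
    rw [show ((QuotientAddGroup.mk y : Tc)) = ((y : ℝ) : Tc) from rfl, this]
    exact Real.abs_cos_le_one _

theorem cs_half (x : Tc) : cs (x + ((1 / 2 : ℝ) : Tc)) = - cs x := by
  induction x using QuotientAddGroup.induction_on with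
  | H y => 
    rw [show ((QuotientAddGroup.mk y : Tc)) = ((y : ℝ) : Tc) from rfl, ← AddCircle.coe_add, cs_coe, cs_coe]
    rw [show 2 * π * (y + 1 / 2) = 2 * π * y + π by ring, Real.cos_add_pi]

theorem prod_id (c : ℝ) (x : Tc) : (cs x + Real.cos c) ^ 2 =
    (1 + cs (x + ((c / (2 * π) : ℝ) : Tc))) * (1 + cs (x + ((-(c / (2 * π)) : ℝ) : Tc))) := by
  induction x using QuotientAddGroup.induction_on with
  | H y => 
    rw [show ((QuotientAddGroup.mk y : Tc)) = ((y : ℝ) : Tc) from rfl, ← AddCircle.coe_add, ← AddCircle.coe_add,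
      cs_coe, cs_coe, cs_coe]
    have e1 : 2 * π * (y + c / (2 * π)) = 2 * π * y + c := by
      have := Real.pi_pos; field_simp
    have e2 : 2 * π * (y + -(c / (2 * π))) = 2 * π * y - c := by
      have := Real.pi_pos; field_simp; ring
    rw [e1, e2, Real.cos_add, Real.cos_sub]
    have h1 := Real.sin_sq_add_cos_sq (2 * π * y)
    have h2 := Real.sin_sq_add_cos_sq c
    have e3 : (1 + (Real.cos (2 * π * y) * Real.cos c - Real.sin (2 * π * y) * Real.sin c)) *
      (1 + (Real.cos (2 * π * y) * Real.cos c + Real.sin (2 * π * y) * Real.sin c)) =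
      (1 + Real.cos (2 * π * y) * Real.cos c) ^ 2 - (Real.sin (2 * π * y)) ^ 2 * (Real.sin c) ^ 2 := by ring
    rw [e3, show Real.sin (2 * π * y) ^ 2 = 1 - Real.cos (2 * π * y) ^ 2 by linarith,
      show Real.sin c ^ 2 = 1 - Real.cos c ^ 2 by linarith]
    ring

theorem anti (x y : ℝ≥0∞) (h : x ≤ y) (r : ℝ) (hr : 0 ≤ r) : y ^ (-r) ≤ x ^ (-r) := by
  rw [ENNReal.rpow_neg, ENNReal.rpow_neg]
  exact ENNReal.inv_le_inv.2 (ENNReal.rpow_le_rpow h hr)

theorem half_le (a b : ℝ≥0∞) (r : ℝ) (hr : 0 ≤ r) : (a * b) ^ (-(r / 2)) ≤ a ^ (-r) + b ^ (-r) := by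
  have key : ∀ a b : ℝ≥0∞, a ≤ b → (a * b) ^ (-(r / 2)) ≤ a ^ (-r) := by
    intro a b hab
    have h1 : a ^ (2 : ℝ) ≤ a * b := by
      rw [show (2 : ℝ) = ((2 : ℕ) : ℝ) by norm_num, ENNReal.rpow_natCast, sq]
      exact mul_le_mul_right hab a
    calc (a * b) ^ (-(r / 2)) ≤ (a ^ (2 : ℝ)) ^ (-(r / 2)) := anti _ _ h1 _ (by linarith)
      _ = a ^ (-r) := by rw [← ENNReal.rpow_mul]; congr 1; ring
  rcases le_total a b with h | h
  · exact (key a b h).trans le_self_add
  · rw [mul_comm]; exact (key b a h).trans le_add_self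

theorem pw_mul (r A w : ℝ) : pw r (A * w) = pw r A * pw r w := by
  unfold pw
  rw [abs_mul, ENNReal.ofReal_mul (abs_nonneg _), ENNReal.mul_rpow_of_ne_top ENNReal.ofReal_ne_top
    ENNReal.ofReal_ne_top]

theorem pw_anti (r : ℝ) (hr : 0 ≤ r) (x y : ℝ) (h : |x| ≤ |y|) : pw r y ≤ pw r x :=
  anti _ _ (ENNReal.ofReal_le_ofReal h) r hr

/-- the integral of `y ^ (-1/2)` -/
theorem base1 : ∫⁻ y in Set.Ioc (0 : ℝ) 1, (ENNReal.ofReal y) ^ (-(1 / 2) : ℝ) ≤ 2 := by
  have h1 : ∫⁻ y in Set.Ioc (0 : ℝ) 1, (ENNReal.ofReal y) ^ (-(1 / 2) : ℝ) =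
      ∫⁻ y in Set.Ioc (0 : ℝ) 1, ENNReal.ofReal (y ^ (-(1 / 2) : ℝ)) := by
    apply setLIntegral_congr_fun measurableSet_Ioc
    intro y hy
    exact ENNReal.ofReal_rpow_of_pos hy.1
  have hint : IntervalIntegrable (fun y : ℝ => y ^ (-(1 / 2) : ℝ)) volume 0 1 :=
    intervalIntegral.intervalIntegrable_rpow' (by norm_num)
  rw [h1, ← ofReal_integral_eq_lintegral_ofReal]
  · rw [← intervalIntegral.integral_of_le (by norm_num), integral_rpow (Or.inl (by norm_num))]
    norm_num
  · exact (intervalIntegrable_iff_integrableOn_Ioc_of_le (by norm_num)).1 hint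
  · filter_upwards [ae_restrict_mem measurableSet_Ioc] with y hy
    exact Real.rpow_nonneg hy.1.le _

theorem base2 : ∫⁻ y in Set.Ioc (0 : ℝ) 1, (ENNReal.ofReal (1 - y)) ^ (-(1 / 2) : ℝ) ≤ 2 := by
  have h1 : ∫⁻ y in Set.Ioc (0 : ℝ) 1, (ENNReal.ofReal (1 - y)) ^ (-(1 / 2) : ℝ) =
      ∫⁻ y in Set.Ico (0 : ℝ) 1, (ENNReal.ofReal y) ^ (-(1 / 2) : ℝ) := by
    have hmp : MeasurePreserving (fun y : ℝ => 1 - y) volume volume :=
      Measure.measurePreserving_sub_left volume 1
    have hpre : (fun y : ℝ => 1 - y) ⁻¹' (Set.Ico (0 : ℝ) 1) = Set.Ioc (0 : ℝ) 1 := by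
      ext y; simp only [Set.mem_preimage, Set.mem_Ico, Set.mem_Ioc]; constructor
      · rintro ⟨h1, h2⟩; exact ⟨by linarith, by linarith⟩
      · rintro ⟨h1, h2⟩; exact ⟨by linarith, by linarith⟩
    rw [← hpre]
    exact hmp.setLIntegral_comp_preimage measurableSet_Ico
      (f := fun y : ℝ => (ENNReal.ofReal y) ^ (-(1 / 2) : ℝ)) (by fun_prop)
  rw [h1, setLIntegral_congr Ico_ae_eq_Ioc]
  exact base1

theorem sin_lb (y : ℝ) (h0 : 0 ≤ y) (h1 : y ≤ 1 / 2) : y ^ 2 ≤ 1 - Real.cos (2 * π * y) := by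
  have h2 := Real.mul_le_sin (x := π * y) (by positivity) (by nlinarith [Real.pi_pos])
  have e : 2 / π * (π * y) = 2 * y := by
    have := Real.pi_pos; field_simp
  rw [e] at h2
  have e2 : Real.cos (2 * π * y) = 1 - 2 * Real.sin (π * y) ^ 2 := by
    rw [show 2 * π * y = 2 * (π * y) by ring, Real.cos_two_mul, Real.sin_sq]; ring
  rw [e2]
  have : (2 * y) ^ 2 ≤ Real.sin (π * y) ^ 2 := pow_le_pow_left₀ (by positivity) h2 2
  nlinarith [sq_nonneg y]

theorem kk (r : ℝ) (hr : 0 < r) (hr4 : r ≤ 1 / 4) :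
    ∫⁻ x : Tc, (ENNReal.ofReal (1 - cs x)) ^ (-r) ≤ 4 := by
  rw [← UnitAddCircle.lintegral_preimage 0, zero_add]
  have key : ∀ z : ℝ, 0 ≤ z → z ≤ 1 → ∀ w : ℝ, z ^ 2 ≤ w → (ENNReal.ofReal w) ^ (-r) ≤
      (ENNReal.ofReal z) ^ (-(1 / 2) : ℝ) := by
    intro z hz hz1 w hw
    calc (ENNReal.ofReal w) ^ (-r) ≤ (ENNReal.ofReal (z ^ 2)) ^ (-r) :=
          anti _ _ (ENNReal.ofReal_le_ofReal hw) r hr.le
      _ = (ENNReal.ofReal z) ^ (-(2 * r)) := by
          rw [ENNReal.ofReal_pow hz, ← ENNReal.rpow_natCast, ← ENNReal.rpow_mul]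
          congr 1; push_cast; ring
      _ ≤ (ENNReal.ofReal z) ^ (-(1 / 2) : ℝ) := by
          apply ENNReal.rpow_le_rpow_of_exponent_ge
          · exact ENNReal.ofReal_le_one.2 hz1
          · linarith
  calc ∫⁻ y in Set.Ioc (0 : ℝ) 1, (ENNReal.ofReal (1 - cs (y : Tc))) ^ (-r)
      ≤ ∫⁻ y in Set.Ioc (0 : ℝ) 1, ((ENNReal.ofReal y) ^ (-(1 / 2) : ℝ) +
          (ENNReal.ofReal (1 - y)) ^ (-(1 / 2) : ℝ)) := by
        apply setLIntegral_mono' measurableSet_Ioc
        intro y hy
        rw [cs_coe]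
        rcases le_total y (1 / 2) with h | h
        · exact (key y hy.1.le hy.2 _ (sin_lb y hy.1.le h)).trans le_self_add
        · refine (key (1 - y) (by linarith [hy.2]) (by linarith [hy.1]) _ ?_).trans le_add_self
          have := sin_lb (1 - y) (by linarith [hy.2]) (by linarith)
          rwa [show 2 * π * (1 - y) = 2 * π - 2 * π * y by ring, Real.cos_two_pi_sub] at this
    _ ≤ 2 + 2 := by
        rw [lintegral_add_left (by fun_prop)]
        exact add_le_add base1 base2
    _ = 4 := by norm_num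

theorem kk' (r : ℝ) (hr : 0 < r) (hr4 : r ≤ 1 / 4) :
    ∫⁻ x : Tc, (ENNReal.ofReal (1 + cs x)) ^ (-r) ≤ 4 := by
  rw [← lintegral_add_right_eq_self (μ := (volume : Measure Tc))
    (fun x : Tc => (ENNReal.ofReal (1 + cs x)) ^ (-r)) ((1 / 2 : ℝ) : Tc)]
  simp only [cs_half]
  exact kk r hr hr4

theorem two_pow (r : ℝ) (hr : 0 < r) (hr4 : r ≤ 1 / 4) : (ENNReal.ofReal (1 / 2)) ^ (-r) ≤ 2 := by
  rw [ENNReal.ofReal_rpow_of_pos (by norm_num)]
  rw [show (2 : ℝ≥0∞) = ENNReal.ofReal 2 by norm_num]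
  apply ENNReal.ofReal_le_ofReal
  rw [show (1 / 2 : ℝ) = 2⁻¹ by norm_num, Real.rpow_neg (by norm_num), Real.inv_rpow (by norm_num), inv_inv]
  calc (2 : ℝ) ^ r ≤ 2 ^ (1 : ℝ) := Real.rpow_le_rpow_of_exponent_le (by norm_num) (by linarith)
    _ = 2 := by norm_num

theorem t_COS : S_COS := by
  intro r hr hr4 A B
  by_cases h0 : A = 0 ∧ B = 0
  · rw [h0.1, h0.2]
    have : pw r (max |(0:ℝ)| |(0:ℝ)|) = ⊤ := by
      unfold pw
      simp [ENNReal.zero_rpow_of_neg (show -r < 0 by linarith)]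
    rw [this]
    simp
  rcases le_or_gt |B| |A| with hBA | hBA
  · -- first case
    have hA : A ≠ 0 := by
      intro hA
      apply h0
      refine ⟨hA, ?_⟩
      rw [hA, abs_zero] at hBA
      exact abs_nonpos_iff.1 hBA
    have hc : Real.cos (Real.arccos (B / A)) = B / A := by
      have : |B / A| ≤ 1 := by
        rw [abs_div]; exact div_le_one_of_le₀ hBA (abs_nonneg _)
      exact Real.cos_arccos (abs_le.1 this).1 (abs_le.1 this).2
    obtain ⟨c, hcc⟩ : ∃ c, c = Real.arccos (B / A) := ⟨_, rfl⟩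
    rw [← hcc] at hc
    rw [max_eq_left hBA]
    have e1 : ∀ x : Tc, pw r (A * cs x + B) = pw r A * pw r (cs x + Real.cos c) := by
      intro x
      rw [← pw_mul, hc]
      congr 1
      field_simp
    have e2 : ∀ x : Tc, pw r (cs x + Real.cos c) ≤
        (ENNReal.ofReal (1 + cs (x + ((c / (2 * π) : ℝ) : Tc)))) ^ (-r) +
        (ENNReal.ofReal (1 + cs (x + ((-(c / (2 * π)) : ℝ) : Tc)))) ^ (-r) := by
      intro x
      refine le_trans (le_of_eq ?_) (half_le _ _ r hr.le)
      have hn : 0 ≤ 1 + cs (x + ((c / (2 * π) : ℝ) : Tc)) := by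
        have := (abs_le.1 (cs_abs (x + ((c / (2 * π) : ℝ) : Tc)))).1
        linarith
      rw [← ENNReal.ofReal_mul hn, ← prod_id, ← sq_abs, ENNReal.ofReal_pow (abs_nonneg _)]
      unfold pw
      rw [← ENNReal.rpow_natCast, ← ENNReal.rpow_mul]
      congr 1; push_cast; ring
    have hpwA : pw r |A| = pw r A := by unfold pw; rw [abs_abs]
    calc ∫⁻ x : Tc, pw r (A * cs x + B) = ∫⁻ x : Tc, pw r A * pw r (cs x + Real.cos c) := by
          simp only [e1]
      _ ≤ ∫⁻ x : Tc, pw r A * ((ENNReal.ofReal (1 + cs (x + ((c / (2 * π) : ℝ) : Tc)))) ^ (-r) +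
        (ENNReal.ofReal (1 + cs (x + ((-(c / (2 * π)) : ℝ) : Tc)))) ^ (-r)) :=
          lintegral_mono fun x => mul_le_mul_right (e2 x) _
      _ = pw r A * ((∫⁻ x : Tc, (ENNReal.ofReal (1 + cs (x + ((c / (2 * π) : ℝ) : Tc)))) ^ (-r)) +
        ∫⁻ x : Tc, (ENNReal.ofReal (1 + cs (x + ((-(c / (2 * π)) : ℝ) : Tc)))) ^ (-r)) := by
          have hcs := cs_cont.measurable
          rw [lintegral_const_mul _ (by fun_prop), lintegral_add_left (by fun_prop)]
      _ ≤ pw r A * (4 + 4) := by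
          apply mul_le_mul_right
          apply add_le_add
          · rw [lintegral_add_right_eq_self (μ := (volume : Measure Tc))
              (fun x : Tc => (ENNReal.ofReal (1 + cs x)) ^ (-r))]
            exact kk' r hr hr4
          · rw [lintegral_add_right_eq_self (μ := (volume : Measure Tc))
              (fun x : Tc => (ENNReal.ofReal (1 + cs x)) ^ (-r))]
            exact kk' r hr hr4
      _ = 8 * pw r |A| := by rw [hpwA, mul_comm]; norm_num
  · rw [max_eq_right hBA.le]
    have hB : 0 < |B| := lt_of_le_of_lt (abs_nonneg _) hBA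
    have hhalf : pw r (|B| * (1 / 2)) ≤ 2 * pw r |B| := by
      rw [pw_mul, mul_comm]
      apply mul_le_mul_left
      unfold pw
      rw [abs_of_pos (by norm_num : (0:ℝ) < 1 / 2)]
      exact two_pow r hr hr4
    rcases le_or_gt |B| (2 * |A|) with h2 | h2
    · have hA : 0 < |A| := by linarith
      -- `|A cs x + B| ≥ |A| (1 ± cs x)`
      have hpA : pw r |A| ≤ 2 * pw r |B| := by
        refine le_trans (pw_anti r hr.le _ _ ?_) hhalf
        rw [abs_of_nonneg (by positivity), abs_abs]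
        linarith
      have hpos : ∀ x : Tc, 0 ≤ 1 + cs x ∧ 0 ≤ 1 - cs x := fun x => by
        have := abs_le.1 (cs_abs x)
        exact ⟨by linarith [this.1], by linarith [this.2]⟩
      have main : (∀ x : Tc, |A| * (1 + cs x) ≤ |A * cs x + B|) ∨
          (∀ x : Tc, |A| * (1 - cs x) ≤ |A * cs x + B|) := by
        rcases le_total 0 A with ha | ha <;> rcases le_total 0 B with hb | hb
        · left; intro x
          rw [abs_of_nonneg ha] at *
          rw [abs_of_nonneg hb] at hBA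
          exact le_trans (by nlinarith [hpos x]) (le_abs_self _)
        · right; intro x
          rw [abs_of_nonneg ha] at *
          rw [abs_of_nonpos hb] at hBA
          exact le_trans (by nlinarith [hpos x]) (neg_le_abs _)
        · right; intro x
          rw [abs_of_nonpos ha] at *
          rw [abs_of_nonneg hb] at hBA
          exact le_trans (by nlinarith [hpos x]) (le_abs_self _)
        · left; intro x
          rw [abs_of_nonpos ha] at *
          rw [abs_of_nonpos hb] at hBA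
          exact le_trans (by nlinarith [hpos x]) (neg_le_abs _)
      have fin : ∀ f : Tc → ℝ, Continuous f → (∀ x, 0 ≤ f x) → (∀ x : Tc, |A| * f x ≤ |A * cs x + B|) →
          ∫⁻ x : Tc, (ENNReal.ofReal (f x)) ^ (-r) ≤ 4 →
          ∫⁻ x : Tc, pw r (A * cs x + B) ≤ 8 * pw r |B| := by
        intro f hf hf0 hfb hfi
        calc ∫⁻ x : Tc, pw r (A * cs x + B) ≤ ∫⁻ x : Tc, pw r |A| * (ENNReal.ofReal (f x)) ^ (-r) := by
              apply lintegral_mono
              intro x
              have : pw r |A| * (ENNReal.ofReal (f x)) ^ (-r) = pw r (|A| * f x) := by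
                rw [pw_mul]; congr 1; unfold pw; rw [abs_of_nonneg (hf0 x)]
              show pw r (A * cs x + B) ≤ pw r |A| * (ENNReal.ofReal (f x)) ^ (-r)
              rw [this]
              apply pw_anti r hr.le
              rw [abs_of_nonneg (mul_nonneg (abs_nonneg _) (hf0 x))]
              exact hfb x
          _ = pw r |A| * ∫⁻ x : Tc, (ENNReal.ofReal (f x)) ^ (-r) := by
              have := hf.measurable
              rw [lintegral_const_mul _ (by fun_prop)]
          _ ≤ (2 * pw r |B|) * 4 := mul_le_mul' hpA hfi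
          _ = 8 * pw r |B| := by ring
      rcases main with hm | hm
      · exact fin (fun x => 1 + cs x) (by have := cs_cont; fun_prop) (fun x => (hpos x).1) hm (kk' r hr hr4)
      · exact fin (fun x => 1 - cs x) (by have := cs_cont; fun_prop) (fun x => (hpos x).2) hm (kk r hr hr4)
    · calc ∫⁻ x : Tc, pw r (A * cs x + B) ≤ ∫⁻ x : Tc, 2 * pw r |B| := by
            apply lintegral_mono
            intro x
            refine le_trans (pw_anti r hr.le (|B| * (1 / 2)) _ ?_) hhalf
            rw [abs_of_nonneg (by positivity)]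
            have h3 : |A * cs x| ≤ |A| := by
              rw [abs_mul]
              exact mul_le_of_le_one_right (abs_nonneg _) (cs_abs x)
            have h4 : |B| - |A * cs x| ≤ |A * cs x + B| := by
              have := abs_sub_abs_le_abs_sub B (-(A * cs x))
              rw [abs_neg, sub_neg_eq_add, add_comm B] at this
              exact this
            linarith
        _ = 2 * pw r |B| := by
            rw [lintegral_const]; simp
        _ ≤ 8 * pw r |B| := by
            apply mul_le_mul_left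
            norm_num

end Run7.h600.RN
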