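import Pool.Agent.Run7.h600.RN.COS

/-!
# Project RN (helper425), piece NEG (helper600)
-/

set_option autoImplicit false

namespace Run7.h600.RN

open MeasureTheory Real Pool.Agent.Run7.h425.RN
open scoped ENNReal

theorem t_NEG : S_COS → S_NEG := by
  intro hCOS a ha
  have ha0 : 0 < |a| := by linarith
  have hg : Continuous (g a) := by
    unfold g
    have := cs_cont
    fun_prop
  have h1 : ∫⁻ x : Tc, pw (1 / 4) (g a x) ≤ ENNReal.ofReal (8 * |a| ^ (-(1 / 4) : ℝ)) := by
    have h := hCOS (1 / 4) (by norm_num) le_rfl (2 * π * a) 2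
    have e : ∀ x : Tc, g a x = 2 * π * a * cs x + 2 := fun x => by unfold g; ring
    simp only [e]
    refine h.trans ?_
    have h2 : pw (1 / 4) (max |2 * π * a| |2|) ≤ pw (1 / 4) a := by
      apply pw_anti _ (by norm_num)
      have h3 : |a| ≤ |2 * π * a| := by
        rw [abs_mul, abs_of_pos (by positivity : (0:ℝ) < 2 * π)]
        nlinarith [Real.pi_gt_three]
      exact (h3.trans (le_max_left _ _)).trans (le_abs_self _)
    calc 8 * pw (1 / 4) (max |2 * π * a| |2|) ≤ 8 * pw (1 / 4) a := mul_le_mul_right h2 _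
      _ = ENNReal.ofReal (8 * |a| ^ (-(1 / 4) : ℝ)) := by
        unfold pw
        rw [ENNReal.ofReal_rpow_of_pos ha0, ENNReal.ofReal_mul (by norm_num)]
        norm_num
  have h2 : ∫⁻ x : Tc, ENNReal.ofReal (|g a x| ^ (-(1 / 4) : ℝ)) ≤
      ENNReal.ofReal (8 * |a| ^ (-(1 / 4) : ℝ)) := by
    refine le_trans (lintegral_mono fun x => ?_) h1
    unfold pw
    by_cases hx : g a x = 0
    · rw [hx, abs_zero, Real.zero_rpow (by norm_num)]; simp
    · rw [ENNReal.ofReal_rpow_of_pos (abs_pos.2 hx)]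
  have hm : AEStronglyMeasurable (fun x : Tc => |g a x| ^ (-(1 / 4) : ℝ)) volume := by
    have := hg.measurable
    exact (by fun_prop : Measurable (fun x : Tc => |g a x| ^ (-(1 / 4) : ℝ))).aestronglyMeasurable
  have h0 : 0 ≤ᵐ[volume] (fun x : Tc => |g a x| ^ (-(1 / 4) : ℝ)) :=
    Filter.Eventually.of_forall fun x => Real.rpow_nonneg (abs_nonneg _) _
  constructor
  · refine ⟨hm, ?_⟩
    rw [hasFiniteIntegral_iff_ofReal h0]
    exact lt_of_le_of_lt h2 ENNReal.ofReal_lt_top
  · rw [integral_eq_lintegral_of_nonneg_ae h0 hm]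
    apply ENNReal.toReal_le_of_le_ofReal (by positivity) h2

end Run7.h600.RN
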