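import Pool.Agent.Run7.h425.RN.Iface

/-!
# Project RN (helper425), piece PTW: two pointwise inequalities (helper600)
-/

set_option autoImplicit false

namespace Run7.h600.RN

open MeasureTheory Real Pool.Agent.Run7.h425.RN
open scoped ENNReal

theorem t_PTW : S_PTW := by
  intro y hy
  have hs : 0 < |y| := abs_pos.2 hy
  obtain ⟨r, hr⟩ : ∃ r : ℝ, r = |y| ^ (1 / 4 : ℝ) := ⟨_, rfl⟩
  have hr0 : 0 < r := by rw [hr]; exact Real.rpow_pos_of_pos hs _
  have hr4 : r ^ 4 = |y| := by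
    rw [hr, ← Real.rpow_natCast, ← Real.rpow_mul hs.le]; norm_num
  have ht : |y| ^ (-(1 / 4) : ℝ) = r⁻¹ := by rw [Real.rpow_neg hs.le, hr]
  have hy2 : y ^ 2 = r ^ 8 := by rw [← sq_abs, ← hr4]; ring
  rw [ht, hy2, ← hr4]
  constructor
  · have h1 : log (1 + r ^ 8) ≤ 8 * log (1 + r) := by
      have e : (8 : ℝ) * log (1 + r) = log ((1 + r) ^ 8) := by
        rw [Real.log_pow]; norm_num
      rw [e]
      apply Real.log_le_log (by positivity)
      have : (1 + r) ^ 8 = 1 + r ^ 8 + (8 * r + 28 * r ^ 2 + 56 * r ^ 3 + 70 * r ^ 4 + 56 * r ^ 5 + 28 * r ^ 6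
        + 8 * r ^ 7) := by ring
      rw [this]
      have : 0 ≤ 8 * r + 28 * r ^ 2 + 56 * r ^ 3 + 70 * r ^ 4 + 56 * r ^ 5 + 28 * r ^ 6 + 8 * r ^ 7 := by
        positivity
      linarith
    have h2 : log (1 + r) = log r + log (1 + r⁻¹) := by
      rw [← Real.log_mul hr0.ne' (by positivity)]
      congr 1
      field_simp
      ring
    have h3 : log (1 + r⁻¹) ≤ r⁻¹ := by
      have := Real.log_le_sub_one_of_pos (show 0 < 1 + r⁻¹ by positivity)
      linarith
    have h4 : log (r ^ 4) = 4 * log r := by rw [Real.log_pow]; norm_num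
    rw [h4]
    linarith
  · have hq : 0 < 1 + r ^ 8 := by positivity
    have h1 : 2 * log (1 + r ^ 4) = log (1 + r ^ 8) + log (1 + 2 * r ^ 4 / (1 + r ^ 8)) := by
      rw [← Real.log_mul hq.ne' (by positivity)]
      have e : (2 : ℝ) * log (1 + r ^ 4) = log ((1 + r ^ 4) ^ 2) := by
        rw [Real.log_pow]; norm_num
      rw [e]
      congr 1
      field_simp
      ring
    have h2 : log (1 + 2 * r ^ 4 / (1 + r ^ 8)) ≤ 2 * r ^ 4 / (1 + r ^ 8) := by
      have := Real.log_le_sub_one_of_pos (show 0 < 1 + 2 * r ^ 4 / (1 + r ^ 8) by positivity)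
      linarith
    have h3 : 2 * r ^ 4 / (1 + r ^ 8) ≤ 2 * r⁻¹ := by
      rw [div_le_iff₀ hq]
      have h5 : r ^ 5 ≤ 1 + r ^ 8 := by
        rcases le_total r 1 with h | h
        · have : r ^ 5 ≤ 1 := pow_le_one₀ hr0.le h
          have : 0 ≤ r ^ 8 := by positivity
          linarith
        · have : r ^ 5 ≤ r ^ 8 := pow_le_pow_right₀ h (by norm_num)
          linarith
      have h6 : r ^ 4 = r⁻¹ * r ^ 5 := by field_simp
      rw [h6]
      have := mul_le_mul_of_nonneg_left h5 (inv_nonneg.2 hr0.le)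
      linarith
    linarith

end Run7.h600.RN
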